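import Mathlib.AlgebraicGeometry.Morphisms.Smooth
import Mathlib.AlgebraicGeometry.ProjectiveSpectrum.Basic
import Mathlib.Combinatorics.Quiver.ReflQuiver

/-!
The Levine-Pandharipande presentation of algebraic cobordism in dimension one.
-/

set_option autoImplicit false

open AlgebraicGeometry CategoryTheory Limits MvPolynomial

namespace Pool.Agent.MP_d45d16_ag

attribute [local instance] MvPolynomial.gradedAlgebra

/-- Projective space over `R` with homogeneous coordinates indexed by `σ`. -/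
noncomputable def PP (R σ : Type) [CommRing R] : Scheme.{0} :=
  Proj (homogeneousSubmodule σ R)

/-- The structure morphism of projective space. -/
noncomputable def PP.s (R σ : Type) [CommRing R] : PP R σ ⟶ Spec (CommRingCat.of R) :=
  Proj.toSpecZero (homogeneousSubmodule σ R) ≫
    Spec.map (CommRingCat.ofHom (algebraMap R (homogeneousSubmodule σ R 0)))

theorem irr_map {R C σ : Type} [CommRing R] [CommRing C] (c : R →+* C) (w : σ → C)
    (h : Ideal.span (Set.range w) = ⊤) :
    (HomogeneousIdeal.irrelevant (homogeneousSubmodule σ R)).toIdeal.map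
      ((Scheme.ΓSpecIso (CommRingCat.of C)).inv.hom.comp (eval₂Hom c w)) = ⊤ := by
  rw [← Ideal.map_map, eq_top_iff, ← Ideal.map_top (Scheme.ΓSpecIso (CommRingCat.of C)).inv.hom]
  refine Ideal.map_mono ?_
  rw [← h, Ideal.span_le]
  rintro _ ⟨i, rfl⟩
  have h1 : (X i : MvPolynomial σ R) ∈
      (HomogeneousIdeal.irrelevant (homogeneousSubmodule σ R)).toIdeal :=
    HomogeneousIdeal.mem_irrelevant_of_mem _ one_pos (isHomogeneous_X R i)
  simpa using Ideal.mem_map_of_mem (eval₂Hom c w) h1

/-- The `C`-valued point of projective space with homogeneous coordinates `w`. -/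
noncomputable def pt {R C σ : Type} [CommRing R] [CommRing C] (c : R →+* C) (w : σ → C)
    (h : Ideal.span (Set.range w) = ⊤) : Spec (CommRingCat.of C) ⟶ PP R σ :=
  Proj.fromOfGlobalSections (homogeneousSubmodule σ R)
    ((Scheme.ΓSpecIso (CommRingCat.of C)).inv.hom.comp (eval₂Hom c w)) (irr_map c w h)

theorem span_single (k : Fin 2) :
    Ideal.span (Set.range (Pi.single k 1 : Fin 2 → ℤ)) = ⊤ :=
  (Ideal.eq_top_iff_one _).mpr (Ideal.subset_span ⟨k, by simp⟩)

/-- The points `0 = [1 : 0]` (for `k = 0`) and `∞ = [0 : 1]` (for `k = 1`) of the projective line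
over `ℤ`. -/
noncomputable def vtx (k : Fin 2) : Spec (CommRingCat.of ℤ) ⟶ PP ℤ (Fin 2) :=
  pt (RingHom.id ℤ) (Pi.single k 1) (span_single k)

/-- A projective morphism: a closed immersion into `X × ℙⁿ` followed by the projection. -/
def IsProj {Y X : Scheme.{0}} (f : Y ⟶ X) : Prop :=
  ∃ (n : ℕ) (i : Y ⟶ PP ℤ (Fin (n + 1))), IsClosedImmersion (prod.lift f i)

variable {X S : Scheme.{0}}

/-- A smooth curve over the base `S` with a projective morphism to `X`. -/
structure Curve (s : X ⟶ S) where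
  /-- the curve -/
  Y : Scheme.{0}
  /-- the morphism -/
  f : Y ⟶ X
  smooth : SmoothOfRelativeDimension 1 (f ≫ s)
  proj : IsProj f

/-- `C` is the disjoint union of `A` and `B` over `X`. -/
def IsUnion {s : X ⟶ S} (C A B : Curve s) : Prop :=
  ∃ (a : A.Y ⟶ C.Y) (b : B.Y ⟶ C.Y), a ≫ C.f = A.f ∧ b ≫ C.f = B.f ∧
    Nonempty (IsColimit (BinaryCofan.mk a b))

/-- A double point cobordism: a smooth surface `T`, projective over `X × ℙ¹`, whose fibre over `∞`
is `C` and whose fibre over `0` is the scheme-theoretic union of the closed subschemes `A`, `B`,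
meeting transversally in `D = A ×_T B`; `E` is `D × ℙ¹`. -/
def IsDouble {s : X ⟶ S} (C A B E : Curve s) : Prop :=
  ∃ (T : Scheme.{0}) (g : T ⟶ X) (π : T ⟶ PP ℤ (Fin 2)) (c : C.Y ⟶ T) (a : A.Y ⟶ T)
    (b : B.Y ⟶ T) (e : E.Y ≅ pullback a b ⨯ PP ℤ (Fin 2)),
    SmoothOfRelativeDimension 2 (g ≫ s) ∧ IsProj (prod.lift g π) ∧
    c ≫ g = C.f ∧ a ≫ g = A.f ∧ b ≫ g = B.f ∧
    e.hom ≫ prod.fst ≫ pullback.fst a b ≫ A.f = E.f ∧
    IsPullback c (specZIsTerminal.from C.Y) π (vtx 1) ∧
    IsClosedImmersion a ∧ IsClosedImmersion b ∧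
    (pullback.fst π (vtx 0)).ker = a.ker ⊓ b.ker ∧
    SmoothOfRelativeDimension 0 (pullback.fst a b ≫ A.f ≫ s)

open FreeAbelianGroup in
/-- The disjoint union relations and the double point relations. -/
def rels (s : X ⟶ S) : Set (FreeAbelianGroup (Curve s)) :=
  {x | ∃ C A B, IsUnion C A B ∧ x = of C - of A - of B} ∪
    {x | ∃ C A B E, IsDouble C A B E ∧ x = of C - of A - of B + of E}

/-- Algebraic cobordism of `X` in dimension one. -/
abbrev Omega1 (s : X ⟶ S) : Type 1 :=
  FreeAbelianGroup (Curve s) ⧸ AddSubgroup.closure (rels s)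

theorem IsProj.of_isPullback {Y Y' X' : Scheme.{0}} {f : Y ⟶ X} {f' : Y' ⟶ X'} {p : Y' ⟶ Y}
    {q : X' ⟶ X} (h : IsPullback p f' f q) (hf : IsProj f) : IsProj f' := by
  obtain ⟨n, i, hi⟩ := hf
  refine ⟨n, p ≫ i, ?_⟩
  have h2 : IsPullback p (prod.lift f' (p ≫ i)) (prod.lift f i) (prod.map q (𝟙 _)) := by
    refine ⟨⟨by ext <;> simp [h.w]⟩, ⟨PullbackCone.IsLimit.mk _
      (fun t => h.lift t.fst (t.snd ≫ prod.fst)
        (by simpa [prod.lift_fst] using t.condition =≫ prod.fst))
      (fun t => by simp) (fun t => ?_) (fun t m h1 h2 => ?_)⟩⟩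
    · ext
      · simp [prod.lift_fst]
      · simpa [prod.lift_snd] using t.condition =≫ prod.snd
    · refine h.hom_ext (by simp [h1]) ?_
      simp [← h2, prod.lift_fst]
  exact MorphismProperty.of_isPullback (P := @IsClosedImmersion) h2 hi

/-- Base change of a curve along `b : S' ⟶ S`. -/
noncomputable def Curve.bc {s : X ⟶ S} {S' : Scheme.{0}} (b : S' ⟶ S) (C : Curve s) :
    Curve (pullback.snd s b) where
  Y := pullback C.f (pullback.fst s b)
  f := pullback.snd C.f (pullback.fst s b)
  smooth := MorphismProperty.of_isPullback (P := @SmoothOfRelativeDimension 1)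
    (self := smoothOfRelativeDimension_isStableUnderBaseChange 1)
    ((IsPullback.of_hasPullback C.f (pullback.fst s b)).paste_vert
      (IsPullback.of_hasPullback s b)) C.smooth
  proj := C.proj.of_isPullback (IsPullback.of_hasPullback C.f (pullback.fst s b))

end Pool.Agent.MP_d45d16_ag
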