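import Mathlib.Data.Complex.Basic
import Pool.Agent.MP_d45d16_ag.Cob

/-!
The group `G₂ × G₂ ⊂ GL₁₄` over `ℂ`, the function field of `GL₁₄ / (G₂ × G₂)` and the twisted
flag variety `E / P`, a product of two five-dimensional quadrics.
-/

set_option autoImplicit false

open AlgebraicGeometry CategoryTheory Limits MvPolynomial Matrix

namespace Pool.Agent.MP_d45d16_ag.Flag

/-- The cross product of imaginary octonions: `e k × e (k + 1) = e (k + 3)`, indices mod `7`. -/
def cross {R : Type} [CommRing R] (x y : Fin 7 → R) : Fin 7 → R := fun k =>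
  x (k + 1) * y (k + 3) - x (k + 3) * y (k + 1) + (x (k + 2) * y (k + 6) - x (k + 6) * y (k + 2)) +
    (x (k + 4) * y (k + 5) - x (k + 5) * y (k + 4))

/-- `G₂(ℂ)`, the automorphisms of the complex octonions acting on the imaginary part. -/
def G2 : Set (Matrix (Fin 7) (Fin 7) ℂ) :=
  {h | h.transpose * h = 1 ∧ ∀ x y, h.mulVec (cross x y) = cross (h.mulVec x) (h.mulVec y)}

/-- The generic matrix, with entries in the function field of `GL₁₄`. -/
noncomputable def gen : Matrix (Fin 7 ⊕ Fin 7) (Fin 7 ⊕ Fin 7)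
    (FractionRing (MvPolynomial ((Fin 7 ⊕ Fin 7) × (Fin 7 ⊕ Fin 7)) ℂ)) :=
  Matrix.of fun i j => algebraMap (MvPolynomial ((Fin 7 ⊕ Fin 7) × (Fin 7 ⊕ Fin 7)) ℂ) _ (X (i, j))

attribute [local instance] MvPolynomial.gradedAlgebra in
/-- The common zeros of a set of polynomials in projective space. -/
def zeros {R σ : Type} [CommRing R] (A : Set (MvPolynomial σ R)) :
    TopologicalSpace.Closeds (PP R σ) :=
  ⟨ProjectiveSpectrum.zeroLocus (homogeneousSubmodule σ R) A,
    ProjectiveSpectrum.isClosed_zeroLocus _ A⟩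

/-- The reduced closed subscheme of projective space cut out by `A`, with its structure
morphism. -/
noncomputable def quad {R σ : Type} [CommRing R] (A : Set (MvPolynomial σ R)) :
    (Scheme.IdealSheafData.vanishingIdeal (zeros A)).subscheme ⟶ Spec (CommRingCat.of R) :=
  (Scheme.IdealSheafData.vanishingIdeal (zeros A)).subschemeι ≫ PP.s R σ

variable {L : Type} [Field L] (g : Matrix (Fin 7 ⊕ Fin 7) (Fin 7 ⊕ Fin 7) L)

/-- The automorphisms of `L` which act on `g` as right translations by `G₂ × G₂`. -/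
def transl [Algebra ℂ L] : Set (AlgEquiv ℂ L L) :=
  {σ | ∃ h₁ ∈ G2, ∃ h₂ ∈ G2, g.map σ = g * (fromBlocks h₁ 0 0 h₂).map (algebraMap ℂ L)}

/-- The fixed field of the translations; for the generic matrix `g` it is the function field of
`GL₁₄ / (G₂ × G₂)`. -/
noncomputable def FF [Algebra ℂ L] : IntermediateField ℂ L :=
  IntermediateField.fixedField (Subgroup.closure (transl g))

variable (F : Type) [Field F] [Algebra F L]

/-- The forms over `F` which vanish on the translate by `g` of the quadric `∑ v k ^ 2 = 0` in the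
summand of `L⁷ ⊕ L⁷` given by `e`. -/
def forms (e : Fin 7 → Fin 7 ⊕ Fin 7) : Set (MvPolynomial (Fin 7 ⊕ Fin 7) F) :=
  {f | (∃ n, f.IsHomogeneous (n + 1)) ∧ (∑ k : Fin 7, X k ^ 2 : MvPolynomial (Fin 7) L) ∣
    aeval (fun i => ∑ k : Fin 7, C (g i (e k)) * X k) f}

/-- The variety `E / P`, the product over `F` of the two twisted quadrics. -/
noncomputable def flagX : Scheme.{0} :=
  pullback (quad (forms g F Sum.inl)) (quad (forms g F Sum.inr))

/-- The structure morphism of `E / P`. -/
noncomputable def flag : flagX g F ⟶ Spec (CommRingCat.of F) :=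
  pullback.fst (quad (forms g F Sum.inl)) (quad (forms g F Sum.inr)) ≫ quad (forms g F Sum.inl)

end Pool.Agent.MP_d45d16_ag.Flag
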