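import Mathlib.RingTheory.Flat.TorsionFree
import Pool.Agent.MP_d45d16_ag.yag.AmbRes
import Pool.Agent.MP_d45d16_ag.yag.Pt

/-!
The restriction (base change) map on cobordism along a field extension.
-/

set_option autoImplicit false

open AlgebraicGeometry CategoryTheory Limits

namespace Pool.Agent.MP_d45d16_ag

variable {F : Type} [Field F] {X : Scheme.{0}} (s : X ⟶ Spec (CommRingCat.of F)) (K : Type)
  [Field K] [Algebra F K]

theorem rels_bc : AddSubgroup.closure (rels s) ≤
    (AddSubgroup.closure
      (rels (pullback.snd s (Spec.map (CommRingCat.ofHom (algebraMap F K)))))).comap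
      (FreeAbelianGroup.map (Curve.bc (Spec.map (CommRingCat.ofHom (algebraMap F K))))) := by
  rw [AddSubgroup.closure_le]
  intro x hx
  refine AddSubgroup.subset_closure (Yag.res_stmt (Yag.idlAPI Yag.ptAPI) _ _ _ s _ ?_ x hx)
  rw [HasRingHomProperty.Spec_iff (P := @Flat)]
  exact RingHom.flat_algebraMap_iff.mpr inferInstance

/-- The restriction map `Ω₁(X) → Ω₁(X_K)` induced by base change of curves. -/
noncomputable def res :
    Omega1 s →+ Omega1 (pullback.snd s (Spec.map (CommRingCat.ofHom (algebraMap F K)))) :=
  QuotientAddGroup.map _ _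
    (FreeAbelianGroup.map (Curve.bc (Spec.map (CommRingCat.ofHom (algebraMap F K)))))
    (rels_bc s K)

/-- The restriction map to the algebraic closure is injective. -/
def ResInj : Prop := Function.Injective (res s (AlgebraicClosure F))

end Pool.Agent.MP_d45d16_ag
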