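import Pool.Agent.MP_d45d16_ag.Flag

/-!
The group `Spin₁₄ ⊂ GL₆₄` over `ℂ` in a half-spin representation, the function field of
`GL₆₄ / Spin₁₄` and the equations of the twisted variety of pure spinors.
-/

set_option autoImplicit false

open MvPolynomial Matrix

namespace Pool.Agent.MP_d45d16_ag.Sp14

/-- Left multiplication by the imaginary octonion `x` in the basis `1 = none`, `e k = some k`. -/
def lm {R : Type} [CommRing R] (x : Fin 7 → R) : Matrix (Option (Fin 7)) (Option (Fin 7)) R :=
  Matrix.of fun i j => match i, j with
    | none, none => 0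
    | none, some j => -x j
    | some i, none => x i
    | some i, some j => Flag.cross x (Pi.single j 1) i

/-- The index set of the half-spin representations `𝕆 ⊗ 𝕆`. -/
abbrev S : Type := Option (Fin 7) × Option (Fin 7)

/-- The quadratic form `|x|² - |y|²` in fourteen variables. -/
def qf {R : Type} [CommRing R] (v : Fin 7 ⊕ Fin 7 → R) : R :=
  ∑ k, v (Sum.inl k) ^ 2 - ∑ k, v (Sum.inr k) ^ 2

/-- Clifford multiplication by `v = (x, y)` between the two half-spin representations:
`ε L_x ⊗ 1 + 1 ⊗ L_y` with `ε = 1` in one direction and `ε = -1` in the other. -/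
def cl {R : Type} [CommRing R] (ε : R) (v : Fin 7 ⊕ Fin 7 → R) : Matrix S S R :=
  ε • kroneckerMap (· * ·) (lm (v ∘ Sum.inl)) 1 + kroneckerMap (· * ·) 1 (lm (v ∘ Sum.inr))

/-- The spin group in a half-spin representation: products of an even number of unit vectors. -/
def Spin (R : Type) [CommRing R] : Submonoid (Matrix S S R) :=
  Submonoid.closure {h | ∃ v w, qf v = 1 ∧ qf w = 1 ∧ h = cl 1 v * cl (-1) w}

/-- The generic matrix, with entries in the function field of `GL₆₄`. -/
noncomputable def gen : Matrix S S (FractionRing (MvPolynomial (S × S) ℂ)) :=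
  Matrix.of fun i j => algebraMap (MvPolynomial (S × S) ℂ) _ (X (i, j))

variable {L : Type} [Field L] (g : Matrix S S L)

/-- The automorphisms of `L` which act on `g` as right translations by `Spin₁₄(ℂ)`. -/
def transl [Algebra ℂ L] : Set (AlgEquiv ℂ L L) :=
  {σ | ∃ h ∈ Spin ℂ, g.map σ = g * h.map (algebraMap ℂ L)}

/-- The fixed field of the translations; for the generic matrix `g` it is the function field of
`GL₆₄ / Spin₁₄`. -/
noncomputable def FF [Algebra ℂ L] : IntermediateField ℂ L :=
  IntermediateField.fixedField (Subgroup.closure (transl g))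

/-- The pure spinor quadric given by three vectors, in the spinor `ψ = X g`. -/
noncomputable def quadric (u v w : Fin 7 ⊕ Fin 7 → L) : MvPolynomial S L :=
  vecMul X (g.map C) ⬝ᵥ ((cl 1 u * cl (-1) v * cl 1 w).map C).mulVec (vecMul X (g.map C))

/-- The forms over `F` which lie in the ideal of the translated variety of pure spinors. -/
def forms (F : Type) [Field F] [Algebra F L] : Set (MvPolynomial S F) :=
  {f | (∃ n, f.IsHomogeneous (n + 1)) ∧
    MvPolynomial.map (algebraMap F L) f ∈ Ideal.span {q | ∃ u v w, q = quadric g u v w}}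

end Pool.Agent.MP_d45d16_ag.Sp14
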